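import Pool.Agent.Helper67.NX2.DefsB

/-!
# Project NX2, module B10: the variance bound
-/

set_option autoImplicit false

open Finset
open scoped BigOperators ComplexConjugate

namespace Pool.Agent.Helper67.NX2

open Pool.Agent.Helper57.NX

noncomputable section

namespace VB

/-- the residue class given by a residue modulo `K` and residues modulo `p ^ r1`, `p ∈ T` -/
theorem crt (r1 K κ : ℕ) (ω : ℕ → ℕ) (T : Finset ℕ) (hT : ∀ p ∈ T, p.Prime ∧ ¬ p ∣ K) :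
    ∃ c : ℕ, ∀ y : ℕ, (y ≡ κ [MOD K] ∧ ∀ p ∈ T, y ≡ ω p [MOD p ^ r1]) ↔
      y ≡ c [MOD K * ∏ p ∈ T, p ^ r1] := by
  classical
  induction T using Finset.induction_on with
  | empty => exact ⟨κ, fun y => by simp⟩
  | @insert p T hp ih =>
    obtain ⟨c, hc⟩ := ih fun q hq => hT q (mem_insert_of_mem hq)
    have hpp := hT p (mem_insert_self p T)
    have hco : Nat.Coprime (K * ∏ q ∈ T, q ^ r1) (p ^ r1) := by
      refine Nat.Coprime.pow_right r1 ?_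
      refine Nat.Coprime.mul_left ?_ ?_
      · exact ((Nat.Prime.coprime_iff_not_dvd hpp.1).2 hpp.2).symm
      · refine Nat.Coprime.prod_left fun q hq => Nat.Coprime.pow_left r1 ?_
        exact (Nat.coprime_primes (hT q (mem_insert_of_mem hq)).1 hpp.1).2
          (fun h => hp (h ▸ hq))
    obtain ⟨c', hc'⟩ := Nat.chineseRemainder hco c (ω p)
    refine ⟨c', fun y => ?_⟩
    rw [prod_insert hp, show K * (p ^ r1 * ∏ q ∈ T, q ^ r1) = (K * ∏ q ∈ T, q ^ r1) * p ^ r1 by ring,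
      ← Nat.modEq_and_modEq_iff_modEq_mul hco]
    constructor
    · rintro ⟨h1, h2⟩
      exact ⟨((hc y).1 ⟨h1, fun q hq => h2 q (mem_insert_of_mem hq)⟩).trans hc'.1.symm,
        (h2 p (mem_insert_self p T)).trans hc'.2.symm⟩
    · rintro ⟨h1, h2⟩
      have h3 := (hc y).2 (h1.trans hc'.1)
      refine ⟨h3.1, fun q hq => ?_⟩
      rcases mem_insert.1 hq with rfl | hq
      · exact h2.trans hc'.2
      · exact h3.2 q hq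

theorem prod_ite (r1 K κ y c : ℕ) (ω : ℕ → ℕ) (T : Finset ℕ)
    (hc : (y ≡ κ [MOD K] ∧ ∀ p ∈ T, y ≡ ω p [MOD p ^ r1]) ↔
      y ≡ c [MOD K * ∏ p ∈ T, p ^ r1]) :
    (if y ≡ κ [MOD K] then (K : ℝ) else 0) *
      ∏ p ∈ T, (if y ≡ ω p [MOD p ^ r1] then (p : ℝ) ^ r1 else 0) =
      if y ≡ c [MOD K * ∏ p ∈ T, p ^ r1] then ((K * ∏ p ∈ T, p ^ r1 : ℕ) : ℝ) else 0 := by
  classical
  by_cases h : y ≡ c [MOD K * ∏ p ∈ T, p ^ r1]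
  · rw [if_pos h]
    obtain ⟨h1, h2⟩ := hc.2 h
    rw [if_pos h1, prod_congr rfl fun p hp => if_pos (h2 p hp)]
    push_cast
    rfl
  · rw [if_neg h]
    by_cases h1 : y ≡ κ [MOD K]
    · have h2 : ∃ p ∈ T, ¬ y ≡ ω p [MOD p ^ r1] := by
        by_contra hcon
        push Not at hcon
        exact h (hc.1 ⟨h1, hcon⟩)
      obtain ⟨p, hp, hp2⟩ := h2
      rw [prod_eq_zero hp (if_neg hp2), mul_zero]
    · rw [if_neg h1, zero_mul]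

/-- expansion of the factors in `B` -/
theorem DS_split (F : ℕ → ℝ) (K r1 b j : ℕ) (B E : Finset ℕ) (hBE : Disjoint B E) (κ t : ℕ)
    (ω : ℕ → ℕ) :
    DS F K r1 b j (B ∪ E) κ (fun p => if p ∈ B then ω p else t) =
      ∑ T ∈ B.powerset, (-1) ^ (B \ T).card * ((∑ y ∈ bl b j, F y *
        ((if y ≡ κ [MOD K] then (K : ℝ) else 0) *
          ∏ p ∈ T, (if y ≡ ω p [MOD p ^ r1] then (p : ℝ) ^ r1 else 0)) *
        ∏ p ∈ E, ((if y ≡ t [MOD p ^ r1] then (p : ℝ) ^ r1 else 0) - 1)) / 2 ^ b) := by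
  classical
  unfold DS
  have key : ∀ y : ℕ, F y * (if y ≡ κ [MOD K] then (K : ℝ) else 0) *
      ∏ p ∈ B ∪ E, ((if y ≡ (if p ∈ B then ω p else t) [MOD p ^ r1] then (p : ℝ) ^ r1 else 0) - 1) =
      ∑ T ∈ B.powerset, (-1) ^ (B \ T).card * (F y *
        ((if y ≡ κ [MOD K] then (K : ℝ) else 0) *
          ∏ p ∈ T, (if y ≡ ω p [MOD p ^ r1] then (p : ℝ) ^ r1 else 0)) *
        ∏ p ∈ E, ((if y ≡ t [MOD p ^ r1] then (p : ℝ) ^ r1 else 0) - 1)) := by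
    intro y
    rw [prod_union hBE]
    have h1 : ∏ p ∈ B, ((if y ≡ (if p ∈ B then ω p else t) [MOD p ^ r1] then (p : ℝ) ^ r1 else 0) - 1)
        = ∑ T ∈ B.powerset, (∏ p ∈ T, (if y ≡ ω p [MOD p ^ r1] then (p : ℝ) ^ r1 else 0)) *
          (-1) ^ (B \ T).card := by
      rw [prod_congr rfl (g := fun p => (if y ≡ ω p [MOD p ^ r1] then (p : ℝ) ^ r1 else 0) + (-1))
        (fun p hp => by rw [if_pos hp, sub_eq_add_neg]), prod_add]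
      exact sum_congr rfl fun T _ => by rw [prod_const]
    have h2 : ∏ p ∈ E, ((if y ≡ (if p ∈ B then ω p else t) [MOD p ^ r1] then (p : ℝ) ^ r1 else 0) - 1)
        = ∏ p ∈ E, ((if y ≡ t [MOD p ^ r1] then (p : ℝ) ^ r1 else 0) - 1) :=
      prod_congr rfl fun p hp => by rw [if_neg (disjoint_right.1 hBE hp)]
    rw [h1, h2, sum_mul, mul_sum]
    exact sum_congr rfl fun T _ => by ring
  rw [sum_congr rfl fun y _ => key y, sum_comm, sum_div]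
  refine sum_congr rfl fun T _ => ?_
  rw [← mul_sum, mul_div_assoc]

/-- the frequencies of `∏ (u_p - 1)` -/
def AEs (r1 : ℕ) (E : Finset ℕ) : Finset ℕ :=
  (range (∏ p ∈ E, p ^ r1)).filter (fun a => ∀ p ∈ E, ¬ p ^ r1 ∣ a)

theorem sub_of (r1 : ℕ) {E E' : Finset ℕ} (hE : ∀ p ∈ E, p.Prime) (hE' : ∀ p ∈ E', p.Prime)
    {a a' : ℕ} (ha : a ∈ AEs r1 E) (m : ℤ)
    (h : (a : ℤ) * (∏ p ∈ E', p ^ r1 : ℕ) - a' * (∏ p ∈ E, p ^ r1 : ℕ) =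
      m * ((∏ p ∈ E, p ^ r1 : ℕ) * (∏ p ∈ E', p ^ r1 : ℕ))) : E ⊆ E' := by
  intro p hp
  by_contra hp'
  have h1 : ((p ^ r1 : ℕ) : ℤ) ∣ ((∏ p ∈ E, p ^ r1 : ℕ) : ℤ) :=
    Int.natCast_dvd_natCast.2 (dvd_prod_of_mem _ hp)
  have h2 : ((p ^ r1 : ℕ) : ℤ) ∣ (a : ℤ) * (∏ p ∈ E', p ^ r1 : ℕ) := by
    have : (a : ℤ) * (∏ p ∈ E', p ^ r1 : ℕ) = (∏ p ∈ E, p ^ r1 : ℕ) *
        (a' + m * (∏ p ∈ E', p ^ r1 : ℕ)) := by linear_combination h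
    rw [this]
    exact h1.mul_right _
  rw [← Nat.cast_mul, Int.natCast_dvd_natCast] at h2
  have h3 : Nat.Coprime (p ^ r1) (∏ p ∈ E', p ^ r1) := by
    refine Nat.Coprime.prod_right fun q hq => Nat.Coprime.pow r1 r1 ?_
    exact (Nat.coprime_primes (hE p hp) (hE' q hq)).2 (fun h => hp' (h ▸ hq))
  exact (mem_filter.1 ha).2 p hp (h3.dvd_of_dvd_mul_right h2)

theorem dist_frac (r1 : ℕ) {E E' : Finset ℕ} (hE : ∀ p ∈ E, p.Prime) (hE' : ∀ p ∈ E', p.Prime)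
    {a a' : ℕ} (ha : a ∈ AEs r1 E) (ha' : a' ∈ AEs r1 E') (m : ℤ)
    (h : (a : ℤ) * (∏ p ∈ E', p ^ r1 : ℕ) - a' * (∏ p ∈ E, p ^ r1 : ℕ) =
      m * ((∏ p ∈ E, p ^ r1 : ℕ) * (∏ p ∈ E', p ^ r1 : ℕ))) : E = E' ∧ a = a' := by
  have h1 : E = E' := Subset.antisymm (sub_of r1 hE hE' ha m h)
    (sub_of r1 hE' hE (a' := a) ha' (-m) (by linear_combination -h))
  subst h1
  refine ⟨rfl, ?_⟩
  have hn : 0 < ∏ p ∈ E, p ^ r1 := prod_pos fun p hp => pow_pos (hE p hp).pos r1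
  have h2 := mem_range.1 (mem_filter.1 ha).1
  have h3 := mem_range.1 (mem_filter.1 ha').1
  generalize (∏ p ∈ E, p ^ r1) = n at *
  have h4 : (a : ℤ) - a' = m * n := by
    have hn' : (n : ℤ) ≠ 0 := by positivity
    apply mul_right_cancel₀ hn'
    linear_combination h
  have hm : m = 0 := by
    by_contra hm
    rcases lt_or_gt_of_ne hm with hm | hm
    · have : m * n ≤ -1 * n := by
        apply mul_le_mul_of_nonneg_right (by omega) (by positivity)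
      omega
    · have : 1 * n ≤ m * n := by
        apply mul_le_mul_of_nonneg_right (by omega) (by positivity)
      omega
  rw [hm, zero_mul] at h4
  omega

theorem prod_pow_le (r0 r1 R : ℕ) (hR : 2 ≤ R) (S : Finset ℕ) (hS : ∀ p ∈ S, p ≤ R)
    (hc : S.card ≤ r0) : ∏ p ∈ S, p ^ r1 ≤ R ^ (r0 * r1) := by
  calc ∏ p ∈ S, p ^ r1 ≤ ∏ p ∈ S, R ^ r1 :=
        prod_le_prod' fun p hp => Nat.pow_le_pow_left (hS p hp) r1
    _ = (R ^ r1) ^ S.card := by rw [prod_const]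
    _ ≤ (R ^ r1) ^ r0 := Nat.pow_le_pow_right (pow_pos (by omega) r1) hc
    _ = R ^ (r0 * r1) := by rw [← pow_mul, mul_comm]

/-- one term of the expansion -/
theorem term_bound (r0 r1 : ℕ) (hr1 : 1 ≤ r1) {C1 C2 C3 : ℝ} (hC1 : 0 < C1)
    (hpars : ∀ (E : Finset ℕ), (∀ p ∈ E, p.Prime) → ∀ (Y : Finset ℕ) (f : ℕ → ℝ),
      𝔼 t ∈ range (∏ p ∈ E, p ^ r1), (∑ y ∈ Y, f y *
          ∏ p ∈ E, ((if y ≡ t [MOD p ^ r1] then (p : ℝ) ^ r1 else 0) - 1)) ^ 2 =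
        ∑ a ∈ AEs r1 E, ‖∑ y ∈ Y, (f y : ℂ) *
          e ((a : ℝ) / ((∏ p ∈ E, p ^ r1 : ℕ) : ℝ) * y)‖ ^ 2)
    (hls : ∀ N0 N M c R Q0 : ℕ, 2 ≤ R → R ≤ N → 1 ≤ M → 1 ≤ Q0 →
      (M * Q0) ^ 16 ≤ N → (∀ p : ℕ, p.Prime → p ∣ M → p ≤ R) →
      ∀ P : Finset (ℕ × ℕ), (∀ x ∈ P, 1 ≤ x.1 ∧ x.1 ≤ Q0 ∧ Nat.Coprime x.1 M ∧
        ∀ p : ℕ, p.Prime → p ∣ x.1 → p ≤ R) →
      (∀ x ∈ P, ∀ y ∈ P, x ≠ y → ∀ m : ℤ, (x.2 : ℤ) * y.1 - y.2 * x.1 ≠ m * (x.1 * y.1)) →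
      ∀ f : ℕ → ℝ, (∀ y, f y ≠ 0 → y.Prime ∧ N ≤ y ^ 4) →
      ∑ x ∈ P, ‖∑ y ∈ (Ico N0 (N0 + N)).filter (fun y => y ≡ c [MOD M]),
          (f y : ℂ) * e ((x.2 : ℝ) / x.1 * y)‖ ^ 2 ≤
        C1 * (Real.log R / Real.log N) * (N / M) *
          ∑ y ∈ (Ico N0 (N0 + N)).filter (fun y => y ≡ c [MOD M]), f y ^ 2)
    (hcell : ∀ (z : ℕ) (A : Finset ℕ), PrA z A → ∀ b j M : ℕ, 1 ≤ b →
      b ≤ z → 1 ≤ M → M ^ 2 < 2 ^ b → ∀ ρ : ZMod M,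
      cell (FA z A) M b j ρ ≤ C2 * (z / b) * (M / M.totient))
    (htot : ∀ M R : ℕ, 1 ≤ M → 2 ≤ R →
      (∀ p : ℕ, p.Prime → p ∣ M → p ≤ R) → (M : ℝ) / M.totient ≤ C3 * Real.log R)
    (hC2 : 0 < C2)
    (z : ℕ) (A : Finset ℕ) (hA : PrA z A) (b j K R : ℕ) (hb1 : 1 ≤ b) (hbz : b ≤ z) (hR : 2 ≤ R)
    (hRb : R ≤ 2 ^ b) (hK : 1 ≤ K) (hsize : (K * R ^ (2 * r0 * r1)) ^ 16 ≤ 2 ^ b)
    (hKR : ∀ p : ℕ, p.Prime → p ∣ K → p ≤ R) (PP : Finset ℕ)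
    (hPP : ∀ p ∈ PP, p.Prime ∧ p ≤ R ∧ ¬ p ∣ K) (κ : ℕ) (B : Finset ℕ) (ω : ℕ → ℕ)
    (hB : B ⊆ PP) (hBc : B.card ≤ r0) (T : Finset ℕ) (hT : T ⊆ B) :
    ∑ E ∈ (PP \ B).powerset.filter (fun E => (B ∪ E).card ≤ r0),
      𝔼 t ∈ range (∏ p ∈ E, p ^ r1), ((∑ y ∈ bl b j, FA z A y *
        ((if y ≡ κ [MOD K] then (K : ℝ) else 0) *
          ∏ p ∈ T, (if y ≡ ω p [MOD p ^ r1] then (p : ℝ) ^ r1 else 0)) *
        ∏ p ∈ E, ((if y ≡ t [MOD p ^ r1] then (p : ℝ) ^ r1 else 0) - 1)) / 2 ^ b) ^ 2 ≤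
      C1 * C2 * C3 * (z / b * Real.log R) ^ 2 := by
  classical
  set Es := (PP \ B).powerset.filter (fun E => (B ∪ E).card ≤ r0) with hEs
  have hTP : ∀ p ∈ T, p.Prime ∧ p ≤ R ∧ ¬ p ∣ K := fun p hp => hPP p (hB (hT hp))
  have hTc : T.card ≤ r0 := (card_le_card hT).trans hBc
  have hEP : ∀ E ∈ Es, ∀ p ∈ E, p.Prime ∧ p ≤ R ∧ ¬ p ∣ K := fun E hE p hp =>
    hPP p (mem_sdiff.1 (mem_powerset.1 (mem_filter.1 hE).1 hp)).1
  have hEB : ∀ E ∈ Es, Disjoint B E := fun E hE =>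
    disjoint_left.2 fun p hp hpE => (mem_sdiff.1 (mem_powerset.1 (mem_filter.1 hE).1 hpE)).2 hp
  have hEc : ∀ E ∈ Es, E.card ≤ r0 := fun E hE =>
    (card_le_card subset_union_right).trans (mem_filter.1 hE).2
  obtain ⟨c, hc⟩ := crt r1 K κ ω T fun p hp => ⟨(hTP p hp).1, (hTP p hp).2.2⟩
  set M := K * ∏ p ∈ T, p ^ r1 with hM
  have hTpos : 0 < ∏ p ∈ T, p ^ r1 := prod_pos fun p hp => pow_pos (hTP p hp).1.pos r1
  have hM1 : 1 ≤ M := Nat.mul_pos hK hTpos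
  set Y := (bl b j).filter (fun y => y ≡ c [MOD M]) with hY
  have hblk : bl b j = Ico (2 ^ b * j) (2 ^ b * j + 2 ^ b) := by
    unfold bl; rw [mul_add, mul_one]
  -- rewriting the inner sum
  have h1 : ∀ E t, (∑ y ∈ bl b j, FA z A y *
        ((if y ≡ κ [MOD K] then (K : ℝ) else 0) *
          ∏ p ∈ T, (if y ≡ ω p [MOD p ^ r1] then (p : ℝ) ^ r1 else 0)) *
        ∏ p ∈ E, ((if y ≡ t [MOD p ^ r1] then (p : ℝ) ^ r1 else 0) - 1)) / 2 ^ b =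
      (M / 2 ^ b : ℝ) * ∑ y ∈ Y, FA z A y *
        ∏ p ∈ E, ((if y ≡ t [MOD p ^ r1] then (p : ℝ) ^ r1 else 0) - 1) := by
    intro E t
    rw [hY, sum_filter, mul_sum, sum_div]
    refine sum_congr rfl fun y _ => ?_
    rw [prod_ite r1 K κ y c ω T (hc y)]
    split_ifs
    · ring
    · ring
  have h2 : ∀ E ∈ Es, 𝔼 t ∈ range (∏ p ∈ E, p ^ r1), ((∑ y ∈ bl b j, FA z A y *
        ((if y ≡ κ [MOD K] then (K : ℝ) else 0) *
          ∏ p ∈ T, (if y ≡ ω p [MOD p ^ r1] then (p : ℝ) ^ r1 else 0)) *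
        ∏ p ∈ E, ((if y ≡ t [MOD p ^ r1] then (p : ℝ) ^ r1 else 0) - 1)) / 2 ^ b) ^ 2 =
      (M / 2 ^ b : ℝ) ^ 2 * ∑ a ∈ AEs r1 E, ‖∑ y ∈ Y, (FA z A y : ℂ) *
          e ((a : ℝ) / ((∏ p ∈ E, p ^ r1 : ℕ) : ℝ) * y)‖ ^ 2 := by
    intro E hE
    rw [← hpars E (fun p hp => (hEP E hE p hp).1) Y (FA z A), mul_expect]
    refine expect_congr rfl fun t _ => ?_
    rw [h1, mul_pow]
  rw [sum_congr rfl h2, ← mul_sum]
  -- the set of fractions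
  set g : (Σ _ : Finset ℕ, ℕ) → ℕ × ℕ := fun x => (∏ p ∈ x.1, p ^ r1, x.2) with hg
  set P : Finset (ℕ × ℕ) := (Es.sigma fun E => AEs r1 E).image g with hP
  have hinj : ∀ x ∈ Es.sigma (fun E => AEs r1 E), ∀ y ∈ Es.sigma (fun E => AEs r1 E),
      ∀ m : ℤ, ((g x).2 : ℤ) * (g y).1 - (g y).2 * (g x).1 = m * ((g x).1 * (g y).1) → x = y := by
    rintro ⟨E, a⟩ hx ⟨E', a'⟩ hy m h
    rw [mem_sigma] at hx hy
    obtain ⟨h3, h4⟩ := dist_frac r1 (fun p hp => (hEP E hx.1 p hp).1)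
      (fun p hp => (hEP E' hy.1 p hp).1) hx.2 hy.2 m h
    subst h3 h4
    rfl
  have h3 : ∑ E ∈ Es, ∑ a ∈ AEs r1 E, ‖∑ y ∈ Y, (FA z A y : ℂ) *
          e ((a : ℝ) / ((∏ p ∈ E, p ^ r1 : ℕ) : ℝ) * y)‖ ^ 2 =
      ∑ x ∈ P, ‖∑ y ∈ Y, (FA z A y : ℂ) * e ((x.2 : ℝ) / x.1 * y)‖ ^ 2 := by
    rw [hP, sum_image, sum_sigma]
    intro x hx y hy hxy
    refine hinj x hx y hy 0 ?_
    rw [hxy]; ring
  have hQ : 1 ≤ R ^ (r0 * r1) := Nat.one_le_pow _ _ (by omega)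
  have hMle : M ≤ K * R ^ (r0 * r1) :=
    Nat.mul_le_mul_left K (prod_pow_le r0 r1 R hR T (fun p hp => (hTP p hp).2.1) hTc)
  have hMX : M * R ^ (r0 * r1) ≤ K * R ^ (2 * r0 * r1) := by
    calc M * R ^ (r0 * r1) ≤ K * R ^ (r0 * r1) * R ^ (r0 * r1) := Nat.mul_le_mul_right _ hMle
      _ = K * R ^ (2 * r0 * r1) := by rw [mul_assoc, ← pow_add]; congr 2; ring
  have hMR : ∀ p : ℕ, p.Prime → p ∣ M → p ≤ R := by
    intro p hp hpM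
    rcases (Nat.Prime.dvd_mul hp).1 hpM with h | h
    · exact hKR p hp h
    · obtain ⟨q, hq, hpq⟩ := (Prime.dvd_finsetProd_iff hp.prime _).1 h
      have := (Nat.prime_dvd_prime_iff_eq hp (hTP q hq).1).1 (hp.dvd_of_dvd_pow hpq)
      exact this ▸ (hTP q hq).2.1
  have h4 := hls (2 ^ b * j) (2 ^ b) M c R (R ^ (r0 * r1)) hR hRb hM1 hQ
    ((Nat.pow_le_pow_left hMX 16).trans hsize) hMR P
    (by
      intro x hx
      obtain ⟨⟨E, a⟩, hEa, rfl⟩ := mem_image.1 hx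
      rw [mem_sigma] at hEa
      have hE := hEa.1
      refine ⟨prod_pos fun p hp => pow_pos (hEP E hE p hp).1.pos r1,
        prod_pow_le r0 r1 R hR E (fun p hp => (hEP E hE p hp).2.1) (hEc E hE), ?_, ?_⟩
      · refine Nat.Coprime.prod_left fun p hp => Nat.Coprime.pow_left r1 ?_
        refine Nat.Coprime.mul_right ((Nat.Prime.coprime_iff_not_dvd (hEP E hE p hp).1).2
          (hEP E hE p hp).2.2) ?_
        refine Nat.Coprime.prod_right fun q hq => Nat.Coprime.pow_right r1 ?_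
        exact (Nat.coprime_primes (hEP E hE p hp).1 (hTP q hq).1).2
          (fun h => disjoint_left.1 (hEB E hE) (hT hq) (h ▸ hp))
      · intro p hp hpx
        obtain ⟨q, hq, hpq⟩ := (Prime.dvd_finsetProd_iff hp.prime _).1 hpx
        have := (Nat.prime_dvd_prime_iff_eq hp (hEP E hE q hq).1).1 (hp.dvd_of_dvd_pow hpq)
        exact this ▸ (hEP E hE q hq).2.1)
    (by
      intro x hx y hy hxy m hm
      obtain ⟨x', hx', rfl⟩ := mem_image.1 hx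
      obtain ⟨y', hy', rfl⟩ := mem_image.1 hy
      exact hxy (congrArg g (hinj x' hx' y' hy' m hm)))
    (FA z A)
    (by
      intro y hy
      have hyA : y ∈ A := by
        by_contra hcon
        exact hy (if_neg hcon)
      obtain ⟨hp, -, h5⟩ := hA y hyA
      refine ⟨hp, ?_⟩
      calc 2 ^ b ≤ 2 ^ z := Nat.pow_le_pow_right (by norm_num) hbz
        _ ≤ y ^ 2 := h5
        _ ≤ y ^ 4 := Nat.pow_le_pow_right hp.pos (by norm_num))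
  rw [← hblk] at h4
  rw [h3]
  -- the sum of the squares
  have hlog : 0 < Real.log ((2 : ℝ) ^ z) := Real.log_pos (one_lt_pow₀ (by norm_num) (by omega))
  have h5 : ∑ y ∈ Y, FA z A y ^ 2 = Real.log ((2 : ℝ) ^ z) * ∑ y ∈ Y, FA z A y := by
    rw [mul_sum]
    refine sum_congr rfl fun y _ => ?_
    unfold FA
    split_ifs
    · ring
    · ring
  have h6 : (M / 2 ^ b : ℝ) * ∑ y ∈ Y, FA z A y = cell (FA z A) M b j (c : ZMod M) := by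
    unfold cell
    rw [hY, sum_filter]
    congr 1
    refine sum_congr rfl fun y _ => ?_
    by_cases hyc : y ≡ c [MOD M]
    · rw [if_pos hyc, if_pos ((ZMod.natCast_eq_natCast_iff y c M).2 hyc)]
    · rw [if_neg hyc, if_neg fun h => hyc ((ZMod.natCast_eq_natCast_iff y c M).1 h)]
  have hM2 : M ^ 2 < 2 ^ b := by
    have hX : M ≤ K * R ^ (2 * r0 * r1) := (Nat.le_mul_of_pos_right M hQ).trans hMX
    rcases Nat.lt_or_ge 1 M with hM' | hM'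
    · calc M ^ 2 < M ^ 16 := Nat.pow_lt_pow_right hM' (by norm_num)
        _ ≤ (K * R ^ (2 * r0 * r1)) ^ 16 := Nat.pow_le_pow_left hX 16
        _ ≤ 2 ^ b := hsize
    · have : M = 1 := le_antisymm hM' hM1
      rw [this, one_pow]
      exact Nat.one_lt_two_pow (by omega)
  have h7 := hcell z A hA b j M hb1 hbz hM1 hM2 (c : ZMod M)
  have h8 := htot M R hM1 hR hMR
  have hb0 : (0 : ℝ) < b := by exact_mod_cast hb1
  have hlogR : 0 < Real.log R := Real.log_pos (by exact_mod_cast (by omega : 1 < R))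
  have hM0 : (0 : ℝ) < M := by exact_mod_cast hM1
  have h9 : cell (FA z A) M b j (c : ZMod M) ≤ C2 * (z / b) * (C3 * Real.log R) :=
    h7.trans (mul_le_mul_of_nonneg_left h8 (by positivity))
  have hlog2 : 0 < Real.log 2 := Real.log_pos (by norm_num)
  have hlogb : Real.log ((2 ^ b : ℕ) : ℝ) = b * Real.log 2 := by
    push_cast
    rw [Real.log_pow]
  have hlogz : Real.log ((2 : ℝ) ^ z) = z * Real.log 2 := by rw [Real.log_pow]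
  calc (M / 2 ^ b : ℝ) ^ 2 * ∑ x ∈ P, ‖∑ y ∈ Y, (FA z A y : ℂ) * e ((x.2 : ℝ) / x.1 * y)‖ ^ 2
      ≤ (M / 2 ^ b : ℝ) ^ 2 * (C1 * (Real.log R / Real.log ((2 ^ b : ℕ) : ℝ)) *
          (((2 ^ b : ℕ) : ℝ) / M) * ∑ y ∈ Y, FA z A y ^ 2) :=
        mul_le_mul_of_nonneg_left h4 (by positivity)
    _ = C1 * Real.log R * (z / b) * ((M / 2 ^ b : ℝ) * ∑ y ∈ Y, FA z A y) := by
        rw [h5, hlogb, hlogz]
        push_cast
        field_simp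
    _ ≤ C1 * Real.log R * (z / b) * (C2 * (z / b) * (C3 * Real.log R)) := by
        rw [h6]
        exact mul_le_mul_of_nonneg_left h9 (by positivity)
    _ = C1 * C2 * C3 * (z / b * Real.log R) ^ 2 := by ring

end VB

/-- B10, with the inputs `pars`, `ls_major`, `cell_le`, `totient_ratio` as hypotheses -/
theorem var_bound_of (r0 r1 : ℕ) (hr1 : 1 ≤ r1)
    (hpars : ∀ (E : Finset ℕ), (∀ p ∈ E, p.Prime) → ∀ (Y : Finset ℕ) (f : ℕ → ℝ),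
      𝔼 t ∈ range (∏ p ∈ E, p ^ r1), (∑ y ∈ Y, f y *
          ∏ p ∈ E, ((if y ≡ t [MOD p ^ r1] then (p : ℝ) ^ r1 else 0) - 1)) ^ 2 =
        ∑ a ∈ VB.AEs r1 E, ‖∑ y ∈ Y, (f y : ℂ) *
          e ((a : ℝ) / ((∏ p ∈ E, p ^ r1 : ℕ) : ℝ) * y)‖ ^ 2)
    (hls : ∃ C : ℝ, 0 < C ∧ ∀ N0 N M c R Q0 : ℕ, 2 ≤ R → R ≤ N → 1 ≤ M → 1 ≤ Q0 →
      (M * Q0) ^ 16 ≤ N → (∀ p : ℕ, p.Prime → p ∣ M → p ≤ R) →
      ∀ P : Finset (ℕ × ℕ), (∀ x ∈ P, 1 ≤ x.1 ∧ x.1 ≤ Q0 ∧ Nat.Coprime x.1 M ∧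
        ∀ p : ℕ, p.Prime → p ∣ x.1 → p ≤ R) →
      (∀ x ∈ P, ∀ y ∈ P, x ≠ y → ∀ m : ℤ, (x.2 : ℤ) * y.1 - y.2 * x.1 ≠ m * (x.1 * y.1)) →
      ∀ f : ℕ → ℝ, (∀ y, f y ≠ 0 → y.Prime ∧ N ≤ y ^ 4) →
      ∑ x ∈ P, ‖∑ y ∈ (Ico N0 (N0 + N)).filter (fun y => y ≡ c [MOD M]),
          (f y : ℂ) * e ((x.2 : ℝ) / x.1 * y)‖ ^ 2 ≤
        C * (Real.log R / Real.log N) * (N / M) *
          ∑ y ∈ (Ico N0 (N0 + N)).filter (fun y => y ≡ c [MOD M]), f y ^ 2)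
    (hcell : ∃ C : ℝ, 0 < C ∧ ∀ (z : ℕ) (A : Finset ℕ), PrA z A → ∀ b j M : ℕ, 1 ≤ b →
      b ≤ z → 1 ≤ M → M ^ 2 < 2 ^ b → ∀ ρ : ZMod M,
      cell (FA z A) M b j ρ ≤ C * (z / b) * (M / M.totient))
    (htot : ∃ C : ℝ, 0 < C ∧ ∀ M R : ℕ, 1 ≤ M → 2 ≤ R →
      (∀ p : ℕ, p.Prime → p ∣ M → p ≤ R) → (M : ℝ) / M.totient ≤ C * Real.log R) :
    ∃ C : ℝ, 0 < C ∧ ∀ (z : ℕ) (A : Finset ℕ),
    PrA z A → ∀ b j K R : ℕ, 1 ≤ b → b ≤ z → 2 ≤ R → R ≤ 2 ^ b → 1 ≤ K →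
    (K * R ^ (2 * r0 * r1)) ^ 16 ≤ 2 ^ b → (∀ p : ℕ, p.Prime → p ∣ K → p ≤ R) →
    ∀ PP : Finset ℕ, (∀ p ∈ PP, p.Prime ∧ p ≤ R ∧ ¬ p ∣ K) →
    ∀ (κ : ℕ) (B : Finset ℕ) (ω : ℕ → ℕ), B ⊆ PP → B.card ≤ r0 →
    ∑ E ∈ (PP \ B).powerset.filter (fun E => (B ∪ E).card ≤ r0),
      𝔼 t ∈ range (∏ p ∈ E, p ^ r1),
        DS (FA z A) K r1 b j (B ∪ E) κ (fun p => if p ∈ B then ω p else t) ^ 2 ≤
      (C * (z / b) * Real.log R) ^ 2 := by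
  classical
  obtain ⟨C1, hC1, hls⟩ := hls
  obtain ⟨C2, hC2, hcell⟩ := hcell
  obtain ⟨C3, hC3, htot⟩ := htot
  refine ⟨4 ^ r0 * (C1 * C2 * C3) + 1, by positivity, ?_⟩
  intro z A hA b j K R hb1 hbz hR hRb hK hsize hKR PP hPP κ B ω hB hBc
  have key := VB.term_bound r0 r1 hr1 hC1 hpars hls hcell htot hC2 z A hA b j K R hb1 hbz hR hRb hK
    hsize hKR PP hPP κ B ω hB hBc
  set Es := (PP \ B).powerset.filter (fun E => (B ∪ E).card ≤ r0) with hEs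
  have hEB : ∀ E ∈ Es, Disjoint B E := fun E hE =>
    disjoint_left.2 fun p hp hpE => (mem_sdiff.1 (mem_powerset.1 (mem_filter.1 hE).1 hpE)).2 hp
  set D : Finset ℕ → Finset ℕ → ℕ → ℝ := fun T E t => (∑ y ∈ bl b j, FA z A y *
        ((if y ≡ κ [MOD K] then (K : ℝ) else 0) *
          ∏ p ∈ T, (if y ≡ ω p [MOD p ^ r1] then (p : ℝ) ^ r1 else 0)) *
        ∏ p ∈ E, ((if y ≡ t [MOD p ^ r1] then (p : ℝ) ^ r1 else 0) - 1)) / 2 ^ b with hD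
  have hcard : ((B.powerset.card : ℕ) : ℝ) ≤ 2 ^ r0 := by
    rw [card_powerset]
    push_cast
    exact pow_le_pow_right₀ (by norm_num) hBc
  have h1 : ∀ E ∈ Es, 𝔼 t ∈ range (∏ p ∈ E, p ^ r1),
        DS (FA z A) K r1 b j (B ∪ E) κ (fun p => if p ∈ B then ω p else t) ^ 2 ≤
      2 ^ r0 * ∑ T ∈ B.powerset, 𝔼 t ∈ range (∏ p ∈ E, p ^ r1), D T E t ^ 2 := by
    intro E hE
    rw [← expect_sum_comm, mul_expect]
    refine expect_le_expect fun t _ => ?_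
    rw [VB.DS_split _ _ _ _ _ _ _ (hEB E hE)]
    calc (∑ T ∈ B.powerset, (-1) ^ (B \ T).card * D T E t) ^ 2
        ≤ (B.powerset.card : ℝ) * ∑ T ∈ B.powerset, ((-1) ^ (B \ T).card * D T E t) ^ 2 :=
          sq_sum_le_card_mul_sum_sq
      _ = (B.powerset.card : ℝ) * ∑ T ∈ B.powerset, D T E t ^ 2 := by
          congr 1
          refine sum_congr rfl fun T _ => ?_
          rw [mul_pow, ← pow_mul, mul_comm (B \ T).card 2, pow_mul, neg_one_sq, one_pow, one_mul]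
      _ ≤ 2 ^ r0 * ∑ T ∈ B.powerset, D T E t ^ 2 :=
          mul_le_mul_of_nonneg_right hcard (sum_nonneg fun T _ => sq_nonneg _)
  have h2 : ∑ T ∈ B.powerset, ∑ E ∈ Es, 𝔼 t ∈ range (∏ p ∈ E, p ^ r1), D T E t ^ 2 ≤
      2 ^ r0 * (C1 * C2 * C3 * (z / b * Real.log R) ^ 2) := by
    calc ∑ T ∈ B.powerset, ∑ E ∈ Es, 𝔼 t ∈ range (∏ p ∈ E, p ^ r1), D T E t ^ 2
        ≤ ∑ T ∈ B.powerset, C1 * C2 * C3 * (z / b * Real.log R) ^ 2 :=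
          sum_le_sum fun T hT => key T (mem_powerset.1 hT)
      _ = (B.powerset.card : ℝ) * (C1 * C2 * C3 * (z / b * Real.log R) ^ 2) := by
          rw [sum_const, nsmul_eq_mul]
      _ ≤ 2 ^ r0 * (C1 * C2 * C3 * (z / b * Real.log R) ^ 2) :=
          mul_le_mul_of_nonneg_right hcard (by positivity)
  have h4 : (4 : ℝ) ^ r0 = 2 ^ r0 * 2 ^ r0 := by rw [← mul_pow]; norm_num
  calc ∑ E ∈ Es, 𝔼 t ∈ range (∏ p ∈ E, p ^ r1),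
        DS (FA z A) K r1 b j (B ∪ E) κ (fun p => if p ∈ B then ω p else t) ^ 2
      ≤ ∑ E ∈ Es, 2 ^ r0 * ∑ T ∈ B.powerset, 𝔼 t ∈ range (∏ p ∈ E, p ^ r1), D T E t ^ 2 :=
        sum_le_sum h1
    _ = 2 ^ r0 * ∑ T ∈ B.powerset, ∑ E ∈ Es, 𝔼 t ∈ range (∏ p ∈ E, p ^ r1), D T E t ^ 2 := by
        rw [← mul_sum, sum_comm]
    _ ≤ 2 ^ r0 * (2 ^ r0 * (C1 * C2 * C3 * (z / b * Real.log R) ^ 2)) :=
        mul_le_mul_of_nonneg_left h2 (by positivity)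
    _ = 4 ^ r0 * (C1 * C2 * C3) * (z / b * Real.log R) ^ 2 := by rw [h4]; ring
    _ ≤ ((4 ^ r0 * (C1 * C2 * C3) + 1) * (z / b) * Real.log R) ^ 2 := by
        have h5 : 0 ≤ (4 : ℝ) ^ r0 * (C1 * C2 * C3) := by positivity
        have h6 : (4 : ℝ) ^ r0 * (C1 * C2 * C3) ≤ (4 ^ r0 * (C1 * C2 * C3) + 1) ^ 2 := by nlinarith
        calc (4 : ℝ) ^ r0 * (C1 * C2 * C3) * (z / b * Real.log R) ^ 2
            ≤ (4 ^ r0 * (C1 * C2 * C3) + 1) ^ 2 * (z / b * Real.log R) ^ 2 :=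
              mul_le_mul_of_nonneg_right h6 (sq_nonneg _)
          _ = _ := by ring

end

end Pool.Agent.Helper67.NX2
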