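import Pool.Agent.Helper63.NX2.VarBound
import Pool.Agent.Helper92.NX2.Pars
import Pool.Agent.Helper84.NX2.RoughSum
import Pool.Agent.Helper40.NX2.LsMajor
import Pool.Agent.Helper83.NX2.CellLe
import Pool.Agent.Helper45.NX2.BtClass

/-!
# Project NX2, module B10: the variance bound, unconditional form
-/

set_option autoImplicit false

open Finset
open scoped BigOperators ComplexConjugate

namespace Pool.Agent.Helper67.NX2

open Pool.Agent.Helper57.NX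

noncomputable section

theorem var_bound (r0 r1 : ℕ) (hr1 : 1 ≤ r1) : ∃ C : ℝ, 0 < C ∧ ∀ (z : ℕ) (A : Finset ℕ),
    PrA z A → ∀ b j K R : ℕ, 1 ≤ b → b ≤ z → 2 ≤ R → R ≤ 2 ^ b → 1 ≤ K →
    (K * R ^ (2 * r0 * r1)) ^ 16 ≤ 2 ^ b → (∀ p : ℕ, p.Prime → p ∣ K → p ≤ R) →
    ∀ PP : Finset ℕ, (∀ p ∈ PP, p.Prime ∧ p ≤ R ∧ ¬ p ∣ K) →
    ∀ (κ : ℕ) (B : Finset ℕ) (ω : ℕ → ℕ), B ⊆ PP → B.card ≤ r0 →
    ∑ E ∈ (PP \ B).powerset.filter (fun E => (B ∪ E).card ≤ r0),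
      𝔼 t ∈ range (∏ p ∈ E, p ^ r1),
        DS (FA z A) K r1 b j (B ∪ E) κ (fun p => if p ∈ B then ω p else t) ^ 2 ≤
      (C * (z / b) * Real.log R) ^ 2 :=
  var_bound_of r0 r1 hr1 (fun E hE Y f => pars r1 hr1 E hE Y f) ls_major
    (cell_le_of_bt bt_class) totient_ratio

end

end Pool.Agent.Helper67.NX2
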